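import Pool.Agent.TH683.LSP.Main

/-!
# How many oracles are there for the containments between linear space and `P` or `NP`?

Let `C` be a relativized class of languages which contains the languages decided by one random
question of linear length (`OneQ`) and the parity language (`parLang`), and is contained in the
class `Loc0 Ψ` of the languages given by one of the functionals from a list `Ψ` which get the input
and the strings of linear length in the oracle. Deterministic and nondeterministic linear space,
with questions of linear length, are such classes (see also `examples`). Let `D` be a relativized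
class between `P` and `NP`. We find the exact size, measured by gauges `f`, of the set of the oracles
relative to which `C ⊆ D`, of the set where `C` is a proper subclass of `D`, and of the set where
`D ⊆ C`. The first two are null sets for `f` if and only if, for every `ε > 0`,
`f N ≤ 2 ^ ((log N) ^ ε)` for infinitely many `N`; the third one is a null set for `f` if and only
if, for every `ε > 0`, `f N ≤ N ^ ε` for infinitely many `N`.
-/

set_option autoImplicit false

namespace Pool.Agent.Results.MP_d19090_lc.GaugeThreshold

open Pool.Agent.NPC Pool.Agent.H620R2.Gauge Pool.Agent.TH93.LN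

/-- Algorithms working, deterministically or nondeterministically, on a memory of linear length, with
questions of linear length and polynomial-time computations in each round, are examples for the
class `C`. -/
theorem examples : (∀ A L, OneQ A L → InLinSpace A L) ∧ (∀ A, InLinSpace A (parLang A)) ∧
    (∀ A L, InLinSpace A L → InNLinSpace A L) ∧ ∀ A L, InNLinSpace A L → Loc0 PsiN0 A L :=
  ⟨fun _ _ h => h.inLinSpace, parLang_linSpace, fun _ _ h => h.toN, fun _ _ h => h.loc0⟩

theorem result (f : ℕ → ℝ) (Ψ : ℕ → Oracle → List Bool → Prop)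
    (C D : Oracle → Set (List Bool) → Prop)
    (hC₁ : ∀ A L, OneQ A L → C A L) (hC₂ : ∀ A, C A (parLang A))
    (hC₃ : ∀ A L, C A L → Loc0 Ψ A L)
    (hD₁ : ∀ A L, IsP A L → D A L) (hD₂ : ∀ A L, D A L → IsNP A L) :
    (Null f {A : Oracle | ∀ L, C A L → D A L} ↔
      ∀ ε : ℝ, 0 < ε → ∃ᶠ N : ℕ in Filter.atTop, f N ≤ 2 ^ (Real.logb 2 N) ^ ε) ∧
    (Null f {A : Oracle | (∀ L, C A L → D A L) ∧ ∃ L, D A L ∧ ¬ C A L} ↔
      ∀ ε : ℝ, 0 < ε → ∃ᶠ N : ℕ in Filter.atTop, f N ≤ 2 ^ (Real.logb 2 N) ^ ε) ∧
    (Null f {A : Oracle | ∀ L, D A L → C A L} ↔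
      ∀ ε : ℝ, 0 < ε → ∃ᶠ N : ℕ in Filter.atTop, f N ≤ (N : ℝ) ^ ε) :=
  Pool.Agent.TH683.LSP.gauges Ψ C D f hC₁ hC₂ hC₃ hD₁ hD₂

end Pool.Agent.Results.MP_d19090_lc.GaugeThreshold
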